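import Pool.Agent.PQP.StmtsV
import Pool.Agent.FLX.Stmts

/-!
# Row SOL of table pqp: Paneitz curvatures and densities
-/

set_option autoImplicit false

open scoped InnerProductSpace Topology ContDiff Manifold
open MeasureTheory Filter Set

noncomputable section

namespace Pool.Agent.PQP.H2

open Pool.Agent.Helper42_Paneitz Pool.Agent.Helper82_Vir Pool.Agent.FLX

/-- SOL. -/
theorem sol (hPOT : PotStmt) (hKER : KerStmt) (hREP : RepStmt) (hFIN : FinStmt) : SolStmt := by
  obtain ⟨c₀, -, hp⟩ := hPOT
  have hms : 0 < msig := msig_pos
  intro Q hQ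
  constructor
  · rintro ⟨hQs, u, hu0, hu⟩
    have hus : Sm u := sm_of_contMDiff hu0
    have hQsm : Sm Q := sm_of_contMDiff hQs
    have hPc : Continuous (paneitz u) := continuous_of_sm hus.paneitz
    set F : S4 → ℝ := fun x => Q x * Real.exp (4 * u x) with hF
    have hFP : ∀ x, F x = paneitz u x + 6 := by
      intro x; rw [hu x]; simp [hF]
    have hFc : Continuous F := by
      have e : F = fun x => paneitz u x + 6 := funext hFP
      rw [e]; exact hPc.add continuous_const
    have hFpos : ∀ x, 0 < F x := fun x => mul_pos (hQ x) (Real.exp_pos _)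
    have hFint : ∫ y, F y ∂sig = 6 * msig := by
      have e : (fun y => F y) = fun y => paneitz u y + 6 := funext hFP
      rw [e, integral_add (integrable_cont hPc) (integrable_cont continuous_const),
        integral_paneitz hus, integral_const_sig, zero_add, mul_comm]
    set f : S4 → ℝ := fun x => (6 * msig)⁻¹ * F x with hf
    have hfc : Continuous f := continuous_const.mul hFc
    have hd : Dens f := by
      refine ⟨hfc, fun x => mul_pos (inv_pos.2 (by positivity)) (hFpos x), ?_⟩
      simp only [hf]
      rw [integral_const_mul, hFint, inv_mul_cancel₀ (by positivity)]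
    obtain ⟨-, hpf, -⟩ := hp f hfc
    have hKF : ∀ x, K F x = u x - avg u := by
      intro x
      have e : F = fun y => paneitz u y + 6 := funext hFP
      rw [e, K_add hKER.1 hPc continuous_const, K_const, add_zero, hREP u hus x]
    have hKf : ∀ x, 6 * msig * K f x = u x - avg u := by
      intro x
      rw [← hKF x]
      simp only [hf]
      rw [K_const_mul, ← mul_assoc, mul_inv_cancel₀ (by positivity), one_mul]
    refine ⟨f, hd, (6 * msig)⁻¹ * Real.exp (4 * (avg u - c₀ * avg f)), by positivity, ?_⟩
    intro x
    have h1 : pot f x = u x - (avg u - c₀ * avg f) := by rw [hpf x, hKf x]; ring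
    have h2 : Real.exp (4 * u x) =
        Real.exp (4 * (avg u - c₀ * avg f)) * Real.exp (4 * pot f x) := by
      rw [← Real.exp_add, h1]; congr 1; ring
    simp only [hf, hF]
    rw [h2]
    ring
  · rintro hQs ⟨f, ⟨hfc, hfpos, hf1⟩, A, hA, hf⟩
    obtain ⟨hpc, hpf, -⟩ := hp f hfc
    have hB : 0 < 6 * msig * A := by positivity
    set w : S4 → ℝ := fun x => pot f x + Real.log (6 * msig * A) / 4 with hw
    have hQw : ∀ x, Q x * Real.exp (4 * w x) = 6 * msig * f x := by
      intro x
      have h1 : Real.exp (4 * w x) = Real.exp (4 * pot f x) * (6 * msig * A) := by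
        have h2 : 4 * w x = 4 * pot f x + Real.log (6 * msig * A) := by simp only [hw]; ring
        rw [h2, Real.exp_add, Real.exp_log hB]
      rw [h1, hf x]
      ring
    have hQw' : (fun y => Q y * Real.exp (4 * w y)) = fun y => 6 * msig * f y := funext hQw
    have havg : avg f = 1 / msig := by unfold avg; rw [hf1]
    refine hFIN Q w hQs ⟨hpc.add continuous_const, ?_,
      c₀ * avg f + Real.log (6 * msig * A) / 4, ?_⟩
    · rw [hQw', avg_const_mul, havg]
      field_simp
    · intro x
      rw [hQw', K_const_mul]
      simp only [hw]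
      rw [hpf x]
      ring

end Pool.Agent.PQP.H2
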